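import Pool.Agent.Lib.MP_c00cc5_gt.Sum

/-! A connected sum, along arbitrary discs, with a closed manifold that carries a metric of
sectional curvature at least one and diameter above `π / 2` preserves and reflects the existence
of such a metric. -/

set_option autoImplicit false

open Pool.Agent.Lib.MP_c00cc5_gt

theorem Pool.Agent.Results.MP_c00cc5_gt.ConnectedSum.result (m N N₁ N₂ : ℕ) (hm : 1 ≤ m)
    (M : Set (E N)) (M₁ : Set (E N₁)) (M₂ : Set (E N₂))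
    (hc : IsCompact M) (hn : IsConnected M) (hM : Submfd (E (m + 1)) M)
    (hc₁ : IsCompact M₁) (hn₁ : IsConnected M₁) (hM₁ : Submfd (E (m + 1)) M₁)
    (hc₂ : IsCompact M₂) (hn₂ : IsConnected M₂) (hM₂ : Submfd (E (m + 1)) M₂)
    (i₁ : E (m + 1) → E N₁) (i₂ : E (m + 1) → E N₂) (a : E N₁ → E N) (b : E N₂ → E N)
    (hs : CSum M M₁ M₂ i₁ i₂ a b)
    (h₁ : ∃ G D, Riem (E (m + 1)) M₁ G ∧ Real.pi / 2 < D ∧ Far M₁ G D) :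
    (∃ G D, Riem (E (m + 1)) M₂ G ∧ Real.pi / 2 < D ∧ Far M₂ G D) ↔
      ∃ G D, Riem (E (m + 1)) M G ∧ Real.pi / 2 < D ∧ Far M G D := by
  have d0 : Real.pi / 2 < 2 := by linarith [Real.pi_lt_four]
  have d1 : 2 < Real.pi := by linarith [Real.pi_gt_three]
  obtain ⟨_, _, g₁, d₁, f₁⟩ := h₁
  obtain ⟨_, _, _, _, _, s₁, p₁, t₁⟩ := g₁.twist hm hM₁ hc₁ hn₁.isPreconnected d₁ f₁
  obtain ⟨_, _, _, _, s₁, r₁, t₁, e₁⟩ := t₁.adapt hM₁ hs.disc₁ s₁ p₁.rd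
  have a₁ : Adp M₁ _ _ _ _ i₁ := ⟨s₁, t₁, hs.disc₁, e₁⟩
  constructor
  · rintro ⟨_, _, g₂, d₂, f₂⟩
    obtain ⟨_, _, _, _, _, s₂, p₂, t₂⟩ := g₂.twist hm hM₂ hc₂ hn₂.isPreconnected d₂ f₂
    obtain ⟨_, _, _, _, s₂, r₂, t₂, e₂⟩ := t₂.adapt hM₂ hs.disc₂ s₂ p₂.rd
    obtain ⟨_, _, t⟩ := hs.twisted a₁ ⟨s₂, t₂, hs.disc₂, e₂⟩
    obtain ⟨_, p⟩ := Join.path ((r₂.inv s₂).comp r₁ s₂.symm s₁)
    obtain ⟨G, h⟩ := t.push hM hc hn.isPreconnected (s₂.symm.comp s₁) p d1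
    exact ⟨G, 2, h.1, d0, h.2⟩
  · rintro ⟨_, _, g₂, d₂, f₂⟩
    obtain ⟨_, _, _, _, _, s₂, p₂, t₂⟩ := g₂.twist hm hM hc hn.isPreconnected d₂ f₂
    obtain ⟨_, _, _, _, s₂, r₂, t₂, e₂⟩ := t₂.adapt hM (hs.disc a₁) s₂ p₂.rd
    obtain ⟨_, _, t⟩ := hs.cancel hM hM₂ a₁ ⟨s₂, t₂, hs.disc a₁, e₂⟩
    obtain ⟨_, p⟩ := Join.path (r₁.comp r₂ s₁ s₂)
    obtain ⟨G, h⟩ := t.push hM₂ hc₂ hn₂.isPreconnected (s₁.comp s₂) p d1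
    exact ⟨G, 2, h.1, d0, h.2⟩
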