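import Pool.Agent.Lib.MP_c00cc5_gt.Push

/-! The closed manifolds that carry a metric of sectional curvature at least one and diameter
above `π / 2` are the twisted spheres whose gluing map pulls the round metric back into its own
path component of positively curved metrics. -/

set_option autoImplicit false

open Pool.Agent.Lib.MP_c00cc5_gt

theorem Pool.Agent.Results.MP_c00cc5_gt.Reduction.result (m N : ℕ) (hm : 1 ≤ m) (M : Set (E N))
    (hc : IsCompact M) (hn : IsConnected M) (hM : Submfd (E (m + 1)) M) :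
    List.TFAE [∃ G D, Riem (E (m + 1)) M G ∧ Real.pi / 2 < D ∧ Far M G D,
      ∃ (f g : E (m + 1) → E (m + 1)) (h : ℝ → Met (E (m + 1))) (φ ψ : E (m + 1) → E N),
        SphDiff f g ∧ Path (E m) f h ∧ Twisted M f φ ψ,
      ∀ D, D < Real.pi → ∃ G, Riem (E (m + 1)) M G ∧ Far M G D] := by
  tfae_have 1 → 2 := fun ⟨_, _, hG, hD, hF⟩ => hG.twist hm hM hc hn.isPreconnected hD hF
  tfae_have 2 → 3 := fun ⟨_, _, _, _, _, hf, hh, ht⟩ _ hD =>
    ht.push hM hc hn.isPreconnected hf hh hD
  tfae_have 3 → 1 := fun h => by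
    obtain ⟨G, h1, h2⟩ := h 2 (by linarith [Real.pi_gt_three])
    exact ⟨G, 2, h1, by linarith [Real.pi_lt_four], h2⟩
  tfae_finish
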