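import Pool.Agent.Lib.MP_c00cc5_gt.Main

/-! Pointed wiedersehen metrics of curvature at least one on a twisted sphere and paths of
positively curved metrics on the sphere. -/

set_option autoImplicit false

open Pool.Agent.Lib.MP_c00cc5_gt

theorem Pool.Agent.Results.MP_c00cc5_gt.Wiedersehen.result (m : ℕ) (f g : E (m + 1) → E (m + 1))
    (hf : SphDiff f g) :
    List.TFAE [∃ D, Real.pi / 2 < D ∧ Wied f D, ∃ h, Path (E m) f h,
      ∀ D, 0 < D → D < Real.pi → Wied f D] := by
  tfae_have 1 → 2 := fun ⟨_, hD, hW⟩ => forward hf hD hW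
  tfae_have 2 → 3 := fun ⟨_, hh⟩ _ D0 D1 => backward hf hh D0 D1
  tfae_have 3 → 1 := fun h => ⟨2, by linarith [Real.pi_lt_four],
    h 2 two_pos (by linarith [Real.pi_gt_three])⟩
  tfae_finish
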